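import Pool.Agent.H929.BG.Stm
import Pool.Agent.H872.BW.RECS

/-! # BG (helper929): one step for one group of points, independence -/

set_option autoImplicit false

namespace Pool.Agent.H139.BG

open Finset Pool.Agent.TH3.IR Pool.Agent.Y55.Col Pool.Agent.H929.BW Pool.Agent.H929.BG
open Pool.Agent.H872.BW (piece pow_sub_le floor_bounds)

theorem t_StepS : S_StepS := by
  intro n Λ₀ Λ hn hΛ₀ hΛ hCI
  refine ⟨2 * (3 ^ (n + 2) * ((n + 1) * (4 * n + 6)) +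
    4 ^ (n + 1) * 3 ^ (n + 2) * ((n + 1) * (Λ₀ + 2 * (n + 1)))), ?_⟩
  intro C hC m r β X hm hβ hβB hX hin
  have hn1 : (1 : ℝ) ≤ n := by exact_mod_cast hn
  have hm1 : (1 : ℝ) ≤ m := by exact_mod_cast hm
  set g : ℝ := gg n m with hgdef
  have hg1 : 1 ≤ g := hm1.trans (le_gg n m)
  have hg0 : 0 < g := by linarith
  have hX0 : 0 < X := by linarith
  set H : ℝ := X - (4 * n + 6) with hH
  have hHX : 120 * ((n : ℝ) + 1) ≤ X := by linarith
  have hH0 : 0 < H := by rw [hH]; linarith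
  have hhalf : ∀ x : ℝ, 0 ≤ x → x ≤ 1 / 2 → x ^ (n + 1) ≤ 1 / 4 := by
    intro x hx0 hx
    calc x ^ (n + 1) ≤ x ^ 2 := pow_le_pow_of_le_one hx0 (by linarith) (by omega)
      _ ≤ (1 / 2) ^ 2 := pow_le_pow_left₀ hx0 hx 2
      _ = 1 / 4 := by norm_num
  -- the number `t`
  have h3g : 0 < 3 * g := by linarith
  set t := ⌊X / (3 * g)⌋₊ with ht
  have ht1 : (t : ℝ) ≤ X / (3 * g) := Nat.floor_le (by positivity)
  have ht2 : X / (3 * g) < t + 1 := Nat.lt_floor_add_one _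
  have ht1' : (t : ℝ) * (3 * g) ≤ X := (le_div_iff₀ h3g).1 ht1
  have ht2' : X < (t + 1) * (3 * g) := (div_lt_iff₀ h3g).1 ht2
  have ht0 : 1 ≤ t := by
    by_contra hcon
    have : t = 0 := by omega
    rw [this] at ht2'
    push_cast at ht2'
    linarith
  obtain ⟨M₀, hM₀, hM₀'⟩ := hCI m hm t ht0
  have htg0 : 0 ≤ (t : ℝ) * g := by positivity
  set M := ⌊(t : ℝ) * g + Λ₀⌋₊ with hM
  have hMM : M₀ ≤ M := Nat.le_floor hM₀'
  have hIM : Ind n M (Multiset.replicate (t ^ (n + 1)) m) := hM₀.degree hMM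
  have hM1 : (M : ℝ) ≤ t * g + Λ₀ := Nat.floor_le (by linarith)
  have hM2 : (t : ℝ) * g + Λ₀ < M + 1 := Nat.lt_floor_add_one _
  have hx0 : (t : ℝ) * g ≤ (M : ℝ) + 2 * (n + 1) := by linarith
  have hx1 : (M : ℝ) + 2 * (n + 1) ≤ H / 2 := by rw [hH]; linarith
  have hx2 : X / 4 ≤ (t : ℝ) * g := by linarith
  have hMk : (0 : ℝ) < (M : ℝ) + 2 * (n + 1) := by positivity
  set q : ℝ := (((M : ℝ) + 2 * (n + 1)) / H) ^ (n + 1) with hq
  have hq0 : 0 < q := by positivity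
  have hq4 : q ≤ 1 / 4 := by
    apply hhalf _ (by positivity)
    rw [div_le_iff₀ hH0]
    linarith
  have hqlow : (1 / 4) ^ (n + 1) ≤ q := by
    apply pow_le_pow_left₀ (by norm_num)
    rw [le_div_iff₀ hH0]
    linarith
  obtain ⟨hk1, hk2⟩ := floor_bounds (x := β - 5 / 2) (by linarith) hq0
  set k := ⌊(β - 5 / 2) / q⌋₊ with hk
  have ha : 5 / 2 ≤ (k : ℝ) * q := by linarith
  have hpiece : GS n (fun _ : Fin k => M) ((k : ℝ) * q) H :=
    piece (Pool.Agent.H571.BW.t_NODS) hx1 ha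
  have hPS : PS n (Multiset.replicate (k * t ^ (n + 1)) m) ((k : ℝ) * q) H := by
    refine ⟨Fin k, inferInstance, fun _ => M, fun _ => Multiset.replicate (t ^ (n + 1)) m, hpiece,
      fun _ => hIM, ?_⟩
    rw [Finset.sum_const, Finset.card_univ, Fintype.card_fin, Multiset.nsmul_replicate]
  by_cases hrk : r ≤ k * t ^ (n + 1)
  · exact ⟨(k : ℝ) * q, k * t ^ (n + 1), 0, ha, by linarith, by linarith, by omega, hPS, Or.inl rfl⟩
  push Not at hrk
  obtain ⟨r₂, hr₂⟩ := Nat.exists_eq_add_of_le hrk.le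
  refine ⟨(k : ℝ) * q, k * t ^ (n + 1), r₂, ha, by linarith, by linarith, by omega, hPS, Or.inr ?_⟩
  have hin' : (r : ℝ) * g ^ (n + 1) + C * X ^ n ≤ β * X ^ (n + 1) :=
    hin.resolve_left (by omega)
  have e15 : (r : ℝ) * g ^ (n + 1) = k * ((t : ℝ) * g) ^ (n + 1) + r₂ * g ^ (n + 1) := by
    rw [hr₂]
    push_cast
    ring
  have hXn : 0 ≤ X ^ n := by positivity
  -- the first difference
  have e5 := pow_sub_le (x := (M : ℝ) + 2 * (n + 1)) (y := (t : ℝ) * g) htg0 hx0 n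
  have e6 : (M : ℝ) + 2 * (n + 1) - t * g ≤ Λ₀ + 2 * (n + 1) := by linarith
  have e7 : ((M : ℝ) + 2 * (n + 1)) ^ n ≤ X ^ n :=
    pow_le_pow_left₀ hMk.le (by rw [hH] at hx1; linarith) n
  have e10 : ((M : ℝ) + 2 * (n + 1)) ^ (n + 1) - ((t : ℝ) * g) ^ (n + 1) ≤
      (n + 1) * X ^ n * (Λ₀ + 2 * (n + 1)) := by
    refine e5.trans ?_
    apply mul_le_mul _ e6 (by linarith) (by positivity)
    exact mul_le_mul_of_nonneg_left e7 (by positivity)
  have hk4 : (k : ℝ) ≤ 4 ^ (n + 1) * 3 ^ (n + 2) := by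
    have f1 : (k : ℝ) * (1 / 4) ^ (n + 1) ≤ β - 5 / 2 :=
      (mul_le_mul_of_nonneg_left hqlow (by positivity)).trans hk1
    have f2 : (k : ℝ) = 4 ^ (n + 1) * ((k : ℝ) * (1 / 4) ^ (n + 1)) := by
      rw [one_div, inv_pow]
      field_simp
    rw [f2]
    exact mul_le_mul_of_nonneg_left (by linarith) (by positivity)
  have e11 : (k : ℝ) * (((M : ℝ) + 2 * (n + 1)) ^ (n + 1) - ((t : ℝ) * g) ^ (n + 1)) ≤
      4 ^ (n + 1) * 3 ^ (n + 2) * ((n + 1) * X ^ n * (Λ₀ + 2 * (n + 1))) := by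
    calc (k : ℝ) * (((M : ℝ) + 2 * (n + 1)) ^ (n + 1) - ((t : ℝ) * g) ^ (n + 1))
        ≤ k * ((n + 1) * X ^ n * (Λ₀ + 2 * (n + 1))) :=
          mul_le_mul_of_nonneg_left e10 (by positivity)
      _ ≤ _ := mul_le_mul_of_nonneg_right hk4 (by positivity)
  -- the second difference
  have e4 : (k : ℝ) * q * H ^ (n + 1) = k * ((M : ℝ) + 2 * (n + 1)) ^ (n + 1) := by
    rw [hq, div_pow]
    field_simp
  have e2 := pow_sub_le (x := X) (y := H) hH0.le (by rw [hH]; linarith) n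
  have e3 : X - H = 4 * n + 6 := by rw [hH]; ring
  rw [e3] at e2
  have hnn : 0 ≤ X ^ (n + 1) - H ^ (n + 1) := by
    have := pow_le_pow_left₀ hH0.le (show H ≤ X by rw [hH]; linarith) (n + 1)
    linarith
  have e12 : (k : ℝ) * q * (X ^ (n + 1) - H ^ (n + 1)) ≤
      3 ^ (n + 2) * ((n + 1) * X ^ n * (4 * n + 6)) :=
    mul_le_mul (by linarith) e2 hnn (by positivity)
  -- the constant
  have e8 : (X / 2) ^ n ≤ X ^ n / 2 := by
    rw [div_pow]
    apply div_le_div_of_nonneg_left (by positivity) (by norm_num)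
    calc (2 : ℝ) = 2 ^ 1 := by norm_num
      _ ≤ 2 ^ n := pow_le_pow_right₀ (by norm_num) hn
  have hC0 : 0 ≤ C := le_trans (by positivity) hC
  have e9 : C * (X / 2) ^ n ≤ C * (X ^ n / 2) := mul_le_mul_of_nonneg_left e8 hC0
  have e13 := mul_le_mul_of_nonneg_right hC hXn
  have e14 : ((β - (k : ℝ) * q) * X ^ (n + 1) : ℝ) = β * X ^ (n + 1) -
      k * ((M : ℝ) + 2 * (n + 1)) ^ (n + 1) - (k : ℝ) * q * (X ^ (n + 1) - H ^ (n + 1)) := by
    rw [← e4]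
    ring
  rw [e14]
  have e18 : (k : ℝ) * (((M : ℝ) + 2 * (n + 1)) ^ (n + 1) - ((t : ℝ) * g) ^ (n + 1)) =
    k * ((M : ℝ) + 2 * (n + 1)) ^ (n + 1) - k * ((t : ℝ) * g) ^ (n + 1) := by ring
  rw [e18] at e11
  have e19 : 2 * (3 ^ (n + 2) * (((n : ℝ) + 1) * (4 * n + 6)) +
      4 ^ (n + 1) * 3 ^ (n + 2) * ((n + 1) * (Λ₀ + 2 * (n + 1)))) * X ^ n =
      2 * (3 ^ (n + 2) * ((n + 1) * X ^ n * (4 * n + 6))) +
      2 * (4 ^ (n + 1) * 3 ^ (n + 2) * ((n + 1) * X ^ n * (Λ₀ + 2 * (n + 1)))) := by ring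
  rw [e19] at e13
  linarith

end Pool.Agent.H139.BG
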